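import Pool.Agent.H343.AN.StE

set_option autoImplicit false

/-! # Chains on a circle, in coordinates -/

namespace Pool.Agent.H672.AN.E6

open Pool.Agent.H343.AN

/-- the side on which a chain lies does not change -/
lemma side {O : Set ℝ} {s lo : ℝ} (hs : 0 < s) (hlo : 3 / 2 * s ≤ lo) {n : ℕ} {y : ℕ → ℝ}
    (hall : ∀ i ≤ n, ∀ E' ∈ O, lo ≤ |y i - E'|)
    (hstep : ∀ i < n, |y i - y (i + 1)| ≤ 11 / 10 * s) {e : ℝ} (he : e ∈ O) :
    ∀ j ≤ n, (e < y 0 ↔ e < y j) := by
  intro j
  induction j with
  | zero => intro _; exact Iff.rfl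
  | succ j ih =>
      intro hj
      have ih' := ih (by omega)
      have h1 := le_abs.mp (hall j (by omega) e he)
      have h2 := le_abs.mp (hall (j + 1) hj e he)
      have h3 := abs_le.mp (hstep j (by omega))
      rw [ih']
      constructor
      · intro h
        rcases h1 with h1 | h1 <;> rcases h2 with h2 | h2 <;> linarith [h3.1, h3.2]
      · intro h
        rcases h1 with h1 | h1 <;> rcases h2 with h2 | h2 <;> linarith [h3.1, h3.2]

lemma key {O : Set ℝ} {ρ' s lo hi : ℝ} (hs : 0 < s) (hρ : 1000 * s ≤ ρ')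
    (hO : ∀ E ∈ O, ∀ E' ∈ O, E ≠ E' → ρ' ≤ |E - E'|) (hlh : hi - lo ≤ 21 / 10 * s)
    (hlo : 3 / 2 * s ≤ lo) (hhi : hi ≤ ρ' / 2 + s) {n : ℕ} {y E : ℕ → ℝ}
    (hE : ∀ i ≤ n, E i ∈ O ∧ lo ≤ |y i - E i| ∧ |y i - E i| ≤ hi)
    (hall : ∀ i ≤ n, ∀ E' ∈ O, lo ≤ |y i - E'|)
    (hstep : ∀ i < n, |y i - y (i + 1)| ≤ 11 / 10 * s) {i : ℕ} (hin : i ≤ n)
    (h71 : |y 0 - y i| ≤ 71 / 10 * s) (hlt : E 0 < E i) : |y 0 - y i| ≤ 6 * s := by
  have hE0 := hE 0 (Nat.zero_le n)
  have hEi := hE i hin
  have a0 := abs_le.mp hE0.2.2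
  have ai := abs_le.mp hEi.2.2
  have b71 := abs_le.mp h71
  have hsep : ρ' ≤ E i - E 0 := by
    have := hO _ hEi.1 _ hE0.1 (ne_of_gt hlt)
    rwa [abs_of_pos (by linarith)] at this
  -- all points are between `E 0` and `E i`
  have hy0 : E 0 < y 0 := by
    by_contra hcon
    have h1 : ¬ (E 0 < y i) := fun h => hcon ((side hs hlo hall hstep hE0.1 i hin).mpr h)
    linarith [ai.1]
  have hyi : y i < E i := by
    by_contra hcon
    have h2 : E i ≠ y i := by
      intro h
      have := hEi.2.1
      rw [← h, sub_self, abs_zero] at this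
      linarith
    have h3 : E i < y i := lt_of_le_of_ne (not_lt.mp hcon) h2
    have h1 : E i < y 0 := (side hs hlo hall hstep hEi.1 i hin).mpr h3
    linarith [a0.2]
  have hlow : ∀ j ≤ i, E 0 < y j := fun j hj =>
    (side hs hlo hall hstep hE0.1 j (hj.trans hin)).mp hy0
  have hupp : ∀ j ≤ i, ¬ (E i < y j) := fun j hj h => by
    have h1 := (side hs hlo hall hstep hEi.1 j (hj.trans hin)).mpr h
    have h2 := (side hs hlo hall hstep hEi.1 i hin).mp h1
    linarith
  have hEj : ∀ j ≤ i, E j = E 0 ∨ E j = E i := by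
    intro j hj
    by_contra hcon
    push Not at hcon
    obtain ⟨c1, c2⟩ := hcon
    have hj' := hE j (hj.trans hin)
    have aj := abs_le.mp hj'.2.2
    have s1 := hO _ hj'.1 _ hE0.1 c1
    have s2 := hO _ hj'.1 _ hEi.1 c2
    have l1 := hlow j hj
    have l2 := not_lt.mp (hupp j hj)
    rcases le_abs.mp s1 with s1 | s1
    · rcases le_abs.mp s2 with s2 | s2
      · linarith [aj.1]
      · linarith [a0.2, ai.1, b71.1, b71.2]
    · linarith [aj.2]
  -- the last index with `E j = E 0`
  have hex : ∃ j, j < i ∧ E j = E 0 ∧ E (j + 1) = E i := by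
    by_contra hcon
    push Not at hcon
    have hind : ∀ j ≤ i, E j = E 0 := by
      intro j
      induction j with
      | zero => intro _; rfl
      | succ j ih =>
          intro hj
          rcases hEj (j + 1) hj with h | h
          · exact h
          · exact absurd h (hcon j (by omega) (ih (by omega)))
    have := hind i le_rfl
    linarith
  obtain ⟨j, hji, hj1, hj2⟩ := hex
  have hEj0 := hE j (by omega)
  have hEj1 := hE (j + 1) (by omega)
  rw [hj1] at hEj0
  rw [hj2] at hEj1
  have p0 : |y 0 - E 0| = y 0 - E 0 := abs_of_pos (by linarith)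
  have pj : |y j - E 0| = y j - E 0 := abs_of_pos (by linarith [hlow j hji.le])
  have pi' : |y i - E i| = E i - y i := by rw [abs_sub_comm]; exact abs_of_pos (by linarith)
  have pj' : |y (j + 1) - E i| = E i - y (j + 1) := by
    rw [abs_sub_comm]; exact abs_of_nonneg (by linarith [not_lt.mp (hupp (j + 1) (by omega))])
  rw [p0] at hE0
  rw [pj] at hEj0
  rw [pi'] at hEi
  rw [pj'] at hEj1
  have hst := abs_le.mp (hstep j (by omega))
  rw [abs_le]
  constructor
  · linarith [hE0.2.1, hE0.2.2, hEj0.2.1, hEj0.2.2, hEi.2.1, hEi.2.2, hEj1.2.1, hEj1.2.2, hst.1, hst.2]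
  · linarith [hE0.2.1, hE0.2.2, hEj0.2.1, hEj0.2.2, hEi.2.1, hEi.2.2, hEj1.2.1, hEj1.2.2, hst.1, hst.2]

theorem orb : S_orb := by
  intro O ρ' s lo hi hs hρ hO hlh hlo hhi n y E hE hall hstep i
  induction i with
  | zero =>
      intro _
      rw [sub_self, abs_zero]
      positivity
  | succ i ih =>
      intro hin
      have h6 := ih (by omega)
      have hst := hstep i (by omega)
      have h71 : |y 0 - y (i + 1)| ≤ 71 / 10 * s := by
        have := abs_sub_le (y 0) (y i) (y (i + 1))
        linarith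
      rcases lt_trichotomy (E 0) (E (i + 1)) with h | h | h
      · exact key hs hρ hO hlh hlo hhi hE hall hstep hin h71 h
      · have hE0 := hE 0 (Nat.zero_le n)
        have hEi := hE (i + 1) hin
        rw [← h] at hEi
        have hsd := side hs hlo hall hstep hE0.1 (i + 1) hin
        rcases lt_or_ge (E 0) (y 0) with h0 | h0
        · have h1 := hsd.mp h0
          rw [abs_of_pos (by linarith)] at hE0 hEi
          rw [abs_le]
          constructor <;> linarith [hE0.2.1, hE0.2.2, hEi.2.1, hEi.2.2]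
        · have h1 : y (i + 1) ≤ E 0 := not_lt.mp (fun hc => absurd (hsd.mpr hc) (not_lt.mpr h0))
          rw [abs_of_nonpos (by linarith)] at hE0 hEi
          rw [abs_le]
          constructor <;> linarith [hE0.2.1, hE0.2.2, hEi.2.1, hEi.2.2]
      · have h' : |(fun i => -y i) 0 - (fun i => -y i) (i + 1)| ≤ 6 * s := by
          refine key (O := {x | -x ∈ O}) (ρ' := ρ') (lo := lo) (hi := hi) (y := fun i => -y i) (E := fun i => -E i) hs hρ
            ?_ hlh hlo hhi (n := n) ?_ ?_ ?_ hin ?_ ?_
          · intro a ha b hb hab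
            have := hO (-a) ha (-b) hb (fun hc => hab (neg_injective hc))
            rwa [neg_sub_neg, abs_sub_comm] at this
          · intro j hj
            obtain ⟨e1, e2, e3⟩ := hE j hj
            refine ⟨?_, ?_, ?_⟩
            · show -(-E j) ∈ O
              rwa [neg_neg]
            · show lo ≤ |(-y j) - (-E j)|
              rwa [neg_sub_neg, abs_sub_comm]
            · show |(-y j) - (-E j)| ≤ hi
              rwa [neg_sub_neg, abs_sub_comm]
          · intro j hj e he
            have := hall j hj (-e) he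
            show lo ≤ |(-y j) - e|
            rwa [← abs_neg, neg_sub, sub_neg_eq_add, add_comm, ← sub_neg_eq_add]
          · intro j hj
            have := hstep j hj
            show |(-y j) - (-y (j + 1))| ≤ 11 / 10 * s
            rwa [neg_sub_neg, abs_sub_comm]
          · show |(-y 0) - (-y (i + 1))| ≤ 71 / 10 * s
            rwa [neg_sub_neg, abs_sub_comm]
          · show -E 0 < -E (i + 1)
            linarith
        have h'' : |(-y 0) - (-y (i + 1))| ≤ 6 * s := h'
        rwa [neg_sub_neg, abs_sub_comm] at h''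

end Pool.Agent.H672.AN.E6
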