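import Pool.Agent.H343.AN.StE

set_option autoImplicit false
set_option linter.unusedSectionVars false

/-! # Two-colouring of the circles at small scale -/

namespace Pool.Agent.H672.AN.E7

open Pool.Agent.TH68 Pool.Agent.Helper97.Hyp Pool.Agent.H343.AN

section

variable {Γ : Type} [Group Γ] {W : WNorm Γ} {𝒜 : Type} [MulAction Γ 𝒜] {Y : Sys Γ W 𝒜}

/-- a lift of a point of `SigOne` near the axis `A` -/
structure Lf (R : Circ Y) (W' : WNorm (Γ ⧸ R.N)) (b s : ℝ) (A : 𝒜) (w : Pt W) (m : Γ) : Prop where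
  mN : m ∈ R.N
  red : Red R.N (m • pt W 1) w
  near : ∃ q ∈ Y.S A, dist w q ≤ 10 ^ 4 * Y.θ
  en : ent R A ≤ b
  lev : b + 2 * s ≤ dist (pt W' 1) (prj W W' w)

/-- points of an axis are projections of themselves -/
lemma proj_self {A : 𝒜} {x : Pt W} (hx : x ∈ Y.S A) : IsProj Y.θ (Y.S A) x x := by
  refine ⟨hx, ?_⟩
  intro s _
  have h1 := Y.hδ
  have h2 := Y.hθ
  rw [dist_self]
  linarith

variable {R : Circ Y} {W' : WNorm (Γ ⧸ R.N)}

lemma prj_base {m : Γ} (hm : m ∈ R.N) : prj W W' (m • pt W 1) = pt W' 1 := by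
  rw [prj_smul hm, prj_one]

lemma Lf.level (hQ : Quo W R.N W') {b s : ℝ} {A : 𝒜} {w : Pt W} {m : Γ}
    (h : Lf R W' b s A w m) : dist (m • pt W 1) w = dist (pt W' 1) (prj W W' w) := by
  have := (red_iff hQ (m • pt W 1) w).mp h.red
  rw [prj_base h.mN] at this
  exact this.symm

lemma Lf.facts (T : ToolB) (hQ : Quo W R.N W') (hρ : 10 ^ 6 * Y.θ ≤ R.ρ) {b s : ℝ}
    (hs1 : 10 ^ 6 * Y.θ ≤ s) (hs2 : s ≤ R.ρ / 10 ^ 5) {A : 𝒜} {w : Pt W} {m : Γ}
    (h : Lf R W' b s A w m) {e a : Pt W} (he : IsProj Y.θ (Y.S A) (m • pt W 1) e)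
    (ha : IsProj Y.θ (Y.S A) w a) :
    dist w a ≤ 10001 * Y.θ ∧ Redu R.N (4 * Y.θ) (m • pt W 1) e ∧
      |dist (m • pt W 1) e - ent R A| ≤ 44 * Y.θ ∧
      dist (pt W' 1) (prj W W' w) - ent R A - 10046 * Y.θ ≤ pd (Y.S A) (m • pt W 1) w ∧
      pd (Y.S A) (m • pt W 1) w ≤ dist (pt W' 1) (prj W W' w) - ent R A + 49 * Y.θ ∧
      pd (Y.S A) (m • pt W 1) w ≤ R.ρ / 2 + 6 * Y.θ := by
  have hδ := Y.hδ
  have hθ := Y.hθ
  have hL := h.level hQ
  obtain ⟨q, hq, hwq⟩ := h.near
  have hen := h.en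
  have hlev := h.lev
  have hwa : dist w a ≤ 10001 * Y.θ := by
    have := proj_dist_le ha hq
    linarith
  have hfar : 3 * Y.θ < pd (Y.S A) (m • pt W 1) w := by
    by_contra hcon
    have h1 := le_pd_of_proj he ha
    have h2 := dist_triangle w a e
    rw [dist_comm a e] at h2
    have h3 : dist w e ≤ 10005 * Y.θ := by linarith
    have h4 : Redu R.N (30000 * Y.θ) (m • pt W 1) e := by
      intro n hn
      have g1 := h.red n hn
      have g2 := dist_triangle (m • pt W 1) w e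
      have g3 := dist_triangle (m • pt W 1) (n • e) (n • w)
      rw [dist_smul, dist_comm e w] at g3
      linarith
    have h5 := T.entlev Y R hρ A h.mN (η := 30000 * Y.θ) (by linarith) (by linarith) he h4
    have h6 := (abs_le.mp h5).2
    have h7 := dist_triangle (m • pt W 1) e w
    rw [dist_comm e w] at h7
    linarith
  obtain ⟨n1, n2, n3⟩ := T.near Y A he ha hfar
  have hre : Redu R.N (4 * Y.θ) (m • pt W 1) e := Redu.sub h.red n2
  have hel := T.entlev Y R hρ A h.mN (η := 4 * Y.θ) (by linarith) (by linarith) he hre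
  have hel' : |dist (m • pt W 1) e - ent R A| ≤ 44 * Y.θ := by linarith
  have hel2 := abs_le.mp hel'
  refine ⟨hwa, hre, hel', ?_, ?_, ?_⟩
  · have := dist_le_of_proj he ha
    linarith
  · have := dist_nonneg (x := w) (y := a)
    linarith [hel2.1]
  · have := T.redpd Y R hρ A (η := 0) le_rfl (Redu.of_red h.red le_rfl)
    linarith

/-- the lifting step -/
lemma lift_step (T : ToolB) (hQ : Quo W R.N W') (hρ : 10 ^ 6 * Y.θ ≤ R.ρ) {b s : ℝ}
    (hs1 : 10 ^ 6 * Y.θ ≤ s) (hs2 : s ≤ R.ρ / 10 ^ 5) {A : 𝒜} {w : Pt W} {m : Γ}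
    (h : Lf R W' b s A w m) {z : Pt W'} (hz : z ∈ SigOne R W' b s)
    (hd : dist (prj W W' w) z ≤ s) :
    ∃ w' : Pt W, ∃ m' : Γ, prj W W' w' = z ∧ Lf R W' b s A w' m' ∧ dist w w' ≤ s := by
  have hδ := Y.hδ
  have hθ := Y.hθ
  obtain ⟨hz1, A', hA', w₀, hw₀, hred, q', hq', hwq'⟩ := hz
  obtain ⟨n, hn, hdn⟩ := exists_smul hQ w w₀
  rw [hw₀] at hdn
  have hLf : Lf R W' b s (n • A') (n • w₀) n := by
    refine ⟨hn, hred.smul n, ⟨n • q', Y.smul_mem n A' q' hq', ?_⟩, ?_, ?_⟩
    · rw [dist_smul]; exact hwq'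
    · rw [(T.entatt Y R A').2.2 n hn]; exact hA'
    · rw [prj_smul hn, hw₀]; exact hz1
  have hdw : dist w (n • w₀) ≤ s := by rw [hdn]; exact hd
  obtain ⟨e, he⟩ := Y.proj A (m • pt W 1)
  obtain ⟨a, ha⟩ := Y.proj A w
  obtain ⟨e', he'⟩ := Y.proj (n • A') (n • pt W 1)
  obtain ⟨a', ha'⟩ := Y.proj (n • A') (n • w₀)
  have f1 := h.facts T hQ hρ hs1 hs2 he ha
  have f2 := hLf.facts T hQ hρ hs1 hs2 he' ha'
  obtain ⟨q, hq, hwq⟩ := h.near
  obtain ⟨q2, hq2, hwq2⟩ := hLf.near
  have l1 := h.lev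
  have l2 := hLf.lev
  have e1 := h.en
  have e2 := hLf.en
  have hAA : A = n • A' := by
    refine T.ax Y R hρ (A := A) (B := n • A') (o := pt W 1) (u := w) (v := n • w₀) (s := q)
      (s' := q2) (m := m) (m' := n) (t := 10 ^ 4 * Y.θ) (T := s) (h := 2 * s - 11000 * Y.θ)
      h.mN hn (by linarith) (by linarith) (by linarith) (by linarith) h.red hLf.red hdw ?_ ?_
      hq hwq hq2 hwq2
    · linarith [f1.2.2.2.1]
    · linarith [f2.2.2.2.1]
  refine ⟨n • w₀, n, by rw [prj_smul hn, hw₀], ?_, hdw⟩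
  rw [hAA]
  exact hLf

/-- the index of the layer -/
noncomputable def ix (W' : WNorm (Γ ⧸ R.N)) (s : ℝ) (z : Pt W') : ℤ :=
  ⌊dist (pt W' 1) z / (2 * s)⌋

/-- the colour -/
noncomputable def co (W' : WNorm (Γ ⧸ R.N)) (s : ℝ) (z : Pt W') : Fin 2 :=
  if ix (R := R) W' s z % 2 = 0 then 0 else 1

lemma ix_eq {s : ℝ} (hs : 0 < s) {z z' : Pt W'} (hd : dist z z' ≤ s)
    (hc : co (R := R) W' s z = co (R := R) W' s z') :
    ix (R := R) W' s z = ix (R := R) W' s z' := by
  have h1 : |dist (pt W' 1) z - dist (pt W' 1) z'| ≤ s := by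
    have g1 := dist_triangle (pt W' 1) z z'
    have g2 := dist_triangle (pt W' 1) z' z
    rw [dist_comm z' z] at g2
    rw [abs_le]
    constructor <;> linarith
  have h2 := abs_le.mp h1
  have hs2 : (0 : ℝ) < 2 * s := by linarith
  have a1 := Int.floor_le (dist (pt W' 1) z / (2 * s))
  have a2 := Int.lt_floor_add_one (dist (pt W' 1) z / (2 * s))
  have b1 := Int.floor_le (dist (pt W' 1) z' / (2 * s))
  have b2 := Int.lt_floor_add_one (dist (pt W' 1) z' / (2 * s))
  have hdiv : dist (pt W' 1) z / (2 * s) ≤ dist (pt W' 1) z' / (2 * s) + 1 / 2 := by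
    rw [div_add_div _ _ hs2.ne' two_ne_zero, div_le_div_iff₀ hs2 (by positivity)]
    nlinarith
  have hdiv' : dist (pt W' 1) z' / (2 * s) ≤ dist (pt W' 1) z / (2 * s) + 1 / 2 := by
    rw [div_add_div _ _ hs2.ne' two_ne_zero, div_le_div_iff₀ hs2 (by positivity)]
    nlinarith
  have c1 : ((ix (R := R) W' s z : ℤ) : ℝ) < (ix (R := R) W' s z' : ℝ) + 2 := by
    unfold ix; linarith
  have c2 : ((ix (R := R) W' s z' : ℤ) : ℝ) < (ix (R := R) W' s z : ℝ) + 2 := by
    unfold ix; linarith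
  have c1' : ix (R := R) W' s z < ix (R := R) W' s z' + 2 := by exact_mod_cast c1
  have c2' : ix (R := R) W' s z' < ix (R := R) W' s z + 2 := by exact_mod_cast c2
  unfold co at hc
  by_cases p1 : ix (R := R) W' s z % 2 = 0 <;> by_cases p2 : ix (R := R) W' s z' % 2 = 0
  · omega
  · rw [if_pos p1, if_neg p2] at hc
    exact absurd hc (by decide)
  · rw [if_neg p1, if_pos p2] at hc
    exact absurd hc (by decide)
  · omega

/-- lifting a chain -/
lemma chain (T : ToolB) (hQ : Quo W R.N W') (hρ : 10 ^ 6 * Y.θ ≤ R.ρ) {b s : ℝ}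
    (hs1 : 10 ^ 6 * Y.θ ≤ s) (hs2 : s ≤ R.ρ / 10 ^ 5) {x y : Pt W'} (hx : x ∈ SigOne R W' b s)
    (h : Relation.ReflTransGen (Stp (SigOne R W' b s) (co (R := R) W' s) s) x y) :
    ∃ (A : 𝒜) (n : ℕ) (w : ℕ → Pt W) (m : ℕ → Γ), prj W W' (w 0) = x ∧ prj W W' (w n) = y ∧
      (∀ i ≤ n, Lf R W' b s A (w i) (m i)) ∧
      (∀ i ≤ n, ix (R := R) W' s (prj W W' (w i)) = ix (R := R) W' s x) ∧
      (∀ i < n, dist (w i) (w (i + 1)) ≤ s) := by
  have hs0 : 0 < s := by
    have hδ := Y.hδ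
    have hθ := Y.hθ
    linarith
  induction h with
  | refl =>
      obtain ⟨hz1, A, hA, w₀, hw₀, hred, q', hq', hwq'⟩ := hx
      refine ⟨A, 0, fun _ => w₀, fun _ => 1, hw₀, hw₀, ?_, ?_, ?_⟩
      · intro i _
        refine ⟨R.N.one_mem, ?_, ⟨q', hq', hwq'⟩, hA, ?_⟩
        · rw [one_smul]; exact hred
        · rw [hw₀]; exact hz1
      · intro i _
        rw [hw₀]
      · intro i hi
        exact absurd hi (Nat.not_lt_zero _)
  | @tail y₁ y₂ _ hst ih =>
      obtain ⟨A, n, w, m, h0, hn, hL, hI, hd⟩ := ih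
      obtain ⟨_, hy2, hcc, hdd⟩ := hst
      obtain ⟨w', m', e1, e2, e3⟩ := lift_step T hQ hρ hs1 hs2 (hL n le_rfl) hy2
        (by rw [hn]; exact hdd)
      refine ⟨A, n + 1, fun i => if i ≤ n then w i else w', fun i => if i ≤ n then m i else m',
        ?_, ?_, ?_, ?_, ?_⟩
      · simp only [Nat.zero_le, if_true]; exact h0
      · have hnn : ¬ (n + 1 ≤ n) := by omega
        simp only [if_neg hnn]; exact e1
      · intro i hi
        by_cases hin : i ≤ n
        · simp only [if_pos hin]; exact hL i hin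
        · simp only [if_neg hin]; exact e2
      · intro i hi
        by_cases hin : i ≤ n
        · simp only [if_pos hin]; exact hI i hin
        · simp only [if_neg hin]
          rw [e1, ← hI n le_rfl, hn]
          exact (ix_eq hs0 hdd hcc).symm
      · intro i hi
        by_cases hin : i + 1 ≤ n
        · simp only [if_pos hin, if_pos (show i ≤ n by omega)]
          exact hd i (by omega)
        · have hin' : i = n := by omega
          subst hin'
          simp only [le_refl, if_true, if_neg hin]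
          exact e3

end

theorem e7 : ToolB → S_orb → S_e7 := by
  intro T horb Γ _ W 𝒜 _ Y R W' hQ hρ b s hs1 hs2
  have hδ := Y.hδ
  have hθ := Y.hθ
  have hs0 : 0 < s := by linarith
  refine ⟨co (R := R) W' s, ?_⟩
  intro x y hxy
  rcases hxy.cases_head with heq | ⟨x', hx', _⟩
  · rw [heq, dist_self]; positivity
  have hx : x ∈ SigOne R W' b s := hx'.1
  obtain ⟨A, n, w, m, h0, hn, hL, hI, hd⟩ := chain T hQ hρ hs1 hs2 hx hxy
  have hpe : ∀ i, ∃ e, IsProj Y.θ (Y.S A) (m i • pt W 1) e := fun i => Y.proj A _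
  have hpa : ∀ i, ∃ a, IsProj Y.θ (Y.S A) (w i) a := fun i => Y.proj A _
  choose e he using hpe
  choose a ha using hpa
  have hF := fun i (hi : i ≤ n) => (hL i hi).facts T hQ hρ hs1 hs2 (he i) (ha i)
  -- the orbit of the entry point
  have hg : ∀ i, ∃ g, i ≤ n → g ∈ R.G A ∧ dist (e i) (g • e 0) ≤ 30 * Y.θ := by
    intro i
    by_cases hi : i ≤ n
    · have hm : m 0 * (m i)⁻¹ ∈ R.N :=
        R.N.mul_mem (hL 0 (Nat.zero_le n)).mN (R.N.inv_mem (hL i hi).mN)
      have hms : (m 0 * (m i)⁻¹) • m i • pt W 1 = m 0 • pt W 1 := by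
        rw [mul_smul, inv_smul_smul]
      have := (T.entry Y R hρ A (o := m i • pt W 1) (e := e i) (e' := e 0)
        (m := m 0 * (m i)⁻¹) (η := 4 * Y.θ) hm (by linarith) (by linarith) (he i)
        (by rw [hms]; exact he 0) (hF i hi).2.1
        (by rw [hms]; exact (hF 0 (Nat.zero_le n)).2.1)).1
      obtain ⟨g, h1, h2⟩ := this
      exact ⟨g, fun _ => ⟨h1, h2⟩⟩
    · exact ⟨1, fun h => absurd h hi⟩
  choose g hg using hg
  have hgS : ∀ k ∈ R.G A, k • e 0 ∈ Y.S A := by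
    intro k hk
    have := Y.smul_mem k A (e 0) (he 0).1
    rwa [R.fix A k hk] at this
  -- the level of the lifts
  set j : ℤ := ix (R := R) W' s x with hj
  have hlev1 : ∀ i ≤ n, 2 * s * j ≤ dist (pt W' 1) (prj W W' (w i)) := by
    intro i hi
    have h1 := Int.floor_le (dist (pt W' 1) (prj W W' (w i)) / (2 * s))
    have h2 : ((ix (R := R) W' s (prj W W' (w i)) : ℤ) : ℝ)
        ≤ dist (pt W' 1) (prj W W' (w i)) / (2 * s) := h1
    rw [hI i hi, le_div_iff₀ (by linarith)] at h2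
    linarith
  have hlev2 : ∀ i ≤ n, dist (pt W' 1) (prj W W' (w i)) ≤ 2 * s * (j + 1) := by
    intro i hi
    have h1 := Int.lt_floor_add_one (dist (pt W' 1) (prj W W' (w i)) / (2 * s))
    have h2 : dist (pt W' 1) (prj W W' (w i)) / (2 * s)
        < ((ix (R := R) W' s (prj W W' (w i)) : ℤ) : ℝ) + 1 := h1
    rw [hI i hi, div_lt_iff₀ (by linarith)] at h2
    linarith
  -- coordinates
  have hcE : ∀ i ≤ n, |R.crd A (w i) - R.crd A (g i • e 0)|
      ≤ pd (Y.S A) (m i • pt W 1) (w i) + 32 * Y.θ := by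
    intro i hi
    have h1 := pd_le_of_proj (he i) (proj_self (hgS (g i) (hg i hi).1))
    have h2 := pd_tri (Y.Sne A) (w i) (m i • pt W 1) (g i • e 0)
    have h3 := (abs_le.mp (R.crd_spec A (w i) (g i • e 0))).1
    rw [pd_symm (Y.Sne A) (w i) (m i • pt W 1)] at h2
    linarith [(hg i hi).2]
  have hlow : ∀ i ≤ n, ∀ k ∈ R.G A, dist (pt W' 1) (prj W W' (w i)) - ent R A - 10047 * Y.θ
      ≤ |R.crd A (w i) - R.crd A (k • e 0)| := by
    intro i hi k hk
    have h1 := prj_le hQ (k • m 0 • pt W 1) (w i)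
    rw [prj_smul (R.G_le A hk), prj_base (hL 0 (Nat.zero_le n)).mN] at h1
    have h2 := dist_triangle4 (k • m 0 • pt W 1) (k • e 0) (a i) (w i)
    rw [dist_smul, dist_comm (a i) (w i)] at h2
    have h3 := le_pd_of_proj (proj_self (hgS k hk)) (ha i)
    have h4 := (abs_le.mp (R.crd_spec A (k • e 0) (w i))).2
    rw [abs_sub_comm (R.crd A (k • e 0))] at h4
    have h5 := (abs_le.mp (hF 0 (Nat.zero_le n)).2.2.1).2
    linarith [(hF i hi).1]
  have hmain := horb {t | ∃ k ∈ R.G A, R.crd A (k • e 0) = t} (R.ρ - 10 * Y.θ) s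
    (max (2 * s * j - ent R A) (2 * s) - 20000 * Y.θ)
    (min (2 * s * (j + 1) - ent R A + 20000 * Y.θ) (R.ρ / 2 + 20000 * Y.θ)) hs0 (by linarith)
    (by
      rintro _ ⟨k, hk, rfl⟩ _ ⟨k', hk', rfl⟩ hne
      have hkk : k⁻¹ * k' ≠ 1 := by
        intro h
        apply hne
        rw [inv_mul_eq_one] at h
        rw [h]
      have h1 := R.far A (k⁻¹ * k') ((R.G A).mul_mem ((R.G A).inv_mem hk) hk') hkk (e 0) (he 0).1
      have h2 : dist (k • e 0) (k' • e 0) = dist (e 0) ((k⁻¹ * k') • e 0) := by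
        rw [← dist_smul k (e 0), smul_smul, mul_inv_cancel_left]
      have h3 := le_pd_of_proj (proj_self (hgS k hk)) (proj_self (hgS k' hk'))
      have h4 := (abs_le.mp (R.crd_spec A (k • e 0) (k' • e 0))).2
      linarith)
    (by
      have h1 := min_le_left (2 * s * (j + 1) - ent R A + 20000 * Y.θ) (R.ρ / 2 + 20000 * Y.θ)
      have h2 := le_max_left (2 * s * j - ent R A) (2 * s)
      linarith)
    (by
      have h2 := le_max_right (2 * s * j - ent R A) (2 * s)
      linarith)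
    (by
      have h1 := min_le_right (2 * s * (j + 1) - ent R A + 20000 * Y.θ) (R.ρ / 2 + 20000 * Y.θ)
      linarith)
    n (fun i => R.crd A (w i)) (fun i => R.crd A (g i • e 0))
    (by
      intro i hi
      have l0 := hlow i hi (g i) (hg i hi).1
      have l1 := hlev1 i hi
      have l2 := hlev2 i hi
      have l3 := (hL i hi).lev
      have l4 := (hL i hi).en
      have l5 := hcE i hi
      have l6 := (hF i hi).2.2.2.2
      refine ⟨⟨g i, (hg i hi).1, rfl⟩, ?_, ?_⟩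
      · have : max (2 * s * j - ent R A) (2 * s)
            ≤ dist (pt W' 1) (prj W W' (w i)) - ent R A := max_le (by linarith) (by linarith)
        show max (2 * s * j - ent R A) (2 * s) - 20000 * Y.θ
          ≤ |R.crd A (w i) - R.crd A (g i • e 0)|
        linarith
      · show |R.crd A (w i) - R.crd A (g i • e 0)| ≤ _
        apply le_min
        · linarith [l6.1]
        · linarith [l6.2])
    (by
      rintro i hi _ ⟨k, hk, rfl⟩
      have l0 := hlow i hi k hk
      have l1 := hlev1 i hi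
      have l3 := (hL i hi).lev
      have l4 := (hL i hi).en
      have : max (2 * s * j - ent R A) (2 * s)
            ≤ dist (pt W' 1) (prj W W' (w i)) - ent R A := max_le (by linarith) (by linarith)
      show max (2 * s * j - ent R A) (2 * s) - 20000 * Y.θ
          ≤ |R.crd A (w i) - R.crd A (k • e 0)|
      linarith)
    (by
      intro i hi
      have h1 := (abs_le.mp (R.crd_spec A (w i) (w (i + 1)))).1
      have h2 := pd_le_dist (Y.Sne A) (w i) (w (i + 1))
      have h3 := hd i hi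
      show |R.crd A (w i) - R.crd A (w (i + 1))| ≤ 11 / 10 * s
      linarith)
    n le_rfl
  have hmain' : |R.crd A (w 0) - R.crd A (w n)| ≤ 6 * s := hmain
  have h1 := dist_le_of_proj (ha 0) (ha n)
  have h2 := (abs_le.mp (R.crd_spec A (w 0) (w n))).2
  have h3 := (hF 0 (Nat.zero_le n)).1
  have h4 := (hF n le_rfl).1
  have h5 := prj_le hQ (w 0) (w n)
  rw [h0, hn] at h5
  linarith

end Pool.Agent.H672.AN.E7
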